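/-
MP_e8bc6f_co : almost all simple matroids of rank 4 are paving (isomorphism classes).

The proof (Pool/Agent/Helper2/R4): a simple matroid of rank 4 is encoded by its lines with at least
three points and by the family of the greedy generating sets of its planes; the latter is a packing
(blocks of size at least 4, two blocks share at most 2 points), that is, a paving matroid of rank 4,
in which no block contains a pair which lies on a nontrivial line below a point of the line.  A
switching argument shows that packings which avoid many pairs are rare.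
-/
import Pool.Agent.Helper2.R4.FIN

set_option autoImplicit false

namespace Pool.Agent.Results.MP_e8bc6f_co.RankFour

open Filter

/-- `M` is a simple matroid with ground set all of `Fin n`: every set with at most two elements
is independent. -/
def IsSimple {n : ℕ} (M : Matroid (Fin n)) : Prop :=
  M.E = Set.univ ∧ ∀ I : Set (Fin n), I.ncard ≤ 2 → M.Indep I

/-- `M` has rank `r`: every base has `r` elements. -/
def HasRank {n : ℕ} (M : Matroid (Fin n)) (r : ℕ) : Prop :=
  ∀ B : Set (Fin n), M.IsBase B → B.ncard = r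

/-- `M` is paving: every set smaller than the rank is independent. -/
def IsPaving {n : ℕ} (M : Matroid (Fin n)) : Prop :=
  ∀ B I : Set (Fin n), M.IsBase B → I.ncard + 1 ≤ B.ncard → M.Indep I

/-- The isomorphism class of `M` among the matroids with ground set all of `Fin n`. -/
def isoClass {n : ℕ} (M : Matroid (Fin n)) : Set (Matroid (Fin n)) :=
  {N : Matroid (Fin n) | N.E = Set.univ ∧
    ∃ σ : Equiv.Perm (Fin n), ∀ I : Set (Fin n), M.Indep I ↔ N.Indep (σ '' I)}

/-- The number of isomorphism classes of simple matroids of rank `r` with `n` elements. -/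
noncomputable def s (r n : ℕ) : ℕ :=
  {S : Set (Matroid (Fin n)) | ∃ M : Matroid (Fin n),
    IsSimple M ∧ HasRank M r ∧ S = isoClass M}.ncard

/-- The number of isomorphism classes of paving simple matroids of rank `r` with `n` elements. -/
noncomputable def p (r n : ℕ) : ℕ :=
  {S : Set (Matroid (Fin n)) | ∃ M : Matroid (Fin n),
    IsSimple M ∧ HasRank M r ∧ IsPaving M ∧ S = isoClass M}.ncard

private theorem good_iff {n : ℕ} (M : Matroid (Fin n)) :
    (IsSimple M ∧ HasRank M 4) ↔ Helper2.R4.Good M :=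
  ⟨fun h => ⟨h.1.1, h.1.2, h.2⟩, fun h => ⟨⟨h.1, h.2.1⟩, h.2.2⟩⟩

private theorem pav_iff {n : ℕ} (M : Matroid (Fin n)) (h : HasRank M 4) :
    IsPaving M ↔ Helper2.R4.Pav M := by
  constructor
  · intro hp I hI
    obtain ⟨B, hB⟩ := M.exists_isBase
    exact hp B I hB (by rw [h B hB]; omega)
  · intro hp B I hB hI
    rw [h B hB] at hI
    exact hp I (by omega)

private theorem p_eq (n : ℕ) :
    p 4 n = Helper2.R4.nc n (fun M => Helper2.R4.Good M ∧ Helper2.R4.Pav M) := by
  unfold p Helper2.R4.nc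
  congr 1
  ext S
  constructor
  · rintro ⟨M, h1, h2, h3, h4⟩
    exact ⟨M, ⟨(good_iff M).1 ⟨h1, h2⟩, (pav_iff M h2).1 h3⟩, h4⟩
  · rintro ⟨M, ⟨h1, h2⟩, h3⟩
    obtain ⟨h4, h5⟩ := (good_iff M).2 h1
    exact ⟨M, h4, h5, (pav_iff M h5).2 h2, h3⟩

private theorem s_le (n : ℕ) :
    s 4 n ≤ p 4 n + Helper2.R4.nc n (fun M => Helper2.R4.Good M ∧ ¬ Helper2.R4.Pav M) := by
  have : Finite (Matroid (Fin n)) := Helper2.R4.finite_matroid
  rw [p_eq]
  unfold s Helper2.R4.nc
  refine le_trans (Set.ncard_le_ncard ?_ (Set.toFinite _)) (Set.ncard_union_le _ _)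
  rintro S ⟨M, h1, h2, h3⟩
  by_cases h4 : Helper2.R4.Pav M
  · exact Or.inl ⟨M, ⟨(good_iff M).1 ⟨h1, h2⟩, h4⟩, h3⟩
  · exact Or.inr ⟨M, ⟨(good_iff M).1 ⟨h1, h2⟩, h4⟩, h3⟩

private theorem p_le (n : ℕ) : p 4 n ≤ s 4 n := by
  have : Finite (Matroid (Fin n)) := Helper2.R4.finite_matroid
  unfold s p
  refine Set.ncard_le_ncard ?_ (Set.toFinite _)
  rintro S ⟨M, h1, h2, _, h3⟩
  exact ⟨M, h1, h2, h3⟩

private theorem p_pos (n : ℕ) (hn : 4 ≤ n) : 0 < p 4 n := by
  have : Finite (Matroid (Fin n)) := Helper2.R4.finite_matroid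
  have h1 := Helper2.R4.two_le_card_fam (V := Fin n) (by simpa using hn)
  have h2 := Helper2.R4.card_fam_le (V := Fin n) (by simpa using hn)
  have h3 : 0 < {M : Matroid (Fin n) | Helper2.R4.Good M ∧ Helper2.R4.Pav M}.ncard := by omega
  obtain ⟨M, hM⟩ := (Set.ncard_pos (Set.toFinite _)).1 h3
  rw [p_eq]
  unfold Helper2.R4.nc
  rw [Set.ncard_pos (Set.toFinite _)]
  exact ⟨_, M, hM, rfl⟩

/-- Almost all simple matroids of rank 4 are paving: for all large `n` the proportion of the
isomorphism classes of simple matroids of rank 4 on `n` elements which are not paving is at most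
`exp (-n ^ (1/20))`; in particular `p 4 n / s 4 n → 1`. -/
theorem result :
    (∃ n₀ : ℕ, ∀ n ≥ n₀, 0 < s 4 n ∧
      (1 - Real.exp (-(n : ℝ) ^ (1 / 20 : ℝ))) * s 4 n ≤ p 4 n) ∧
    Tendsto (fun n : ℕ => (p 4 n : ℝ) / s 4 n) atTop (nhds 1) := by
  obtain ⟨n₀, h₀⟩ := Helper2.R4.unlabelled
  have hmain : ∀ n ≥ max n₀ 4, 0 < s 4 n ∧
      (1 - Real.exp (-(n : ℝ) ^ (1 / 20 : ℝ))) * s 4 n ≤ p 4 n := by
    intro n hn
    have hn1 : n₀ ≤ n := le_trans (le_max_left _ _) hn
    have hn2 : 4 ≤ n := le_trans (le_max_right _ _) hn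
    refine ⟨lt_of_lt_of_le (p_pos n hn2) (p_le n), ?_⟩
    have h1 := h₀ n hn1
    rw [← p_eq] at h1
    have h2 : (s 4 n : ℝ) ≤ p 4 n +
        Helper2.R4.nc n (fun M => Helper2.R4.Good M ∧ ¬ Helper2.R4.Pav M) := by
      exact_mod_cast s_le n
    set e := Real.exp (-(n : ℝ) ^ (1 / 20 : ℝ)) with he
    have he0 : 0 < e := Real.exp_pos _
    have he1 : e ≤ 1 := by
      rw [he, Real.exp_le_one_iff]
      have : 0 ≤ (n : ℝ) ^ (1 / 20 : ℝ) := Real.rpow_nonneg (Nat.cast_nonneg _) _
      linarith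
    have hp0 : (0 : ℝ) ≤ p 4 n := Nat.cast_nonneg _
    have h3 : (s 4 n : ℝ) ≤ (1 + e) * p 4 n := by linarith
    calc (1 - e) * (s 4 n : ℝ) ≤ (1 - e) * ((1 + e) * p 4 n) :=
          mul_le_mul_of_nonneg_left h3 (by linarith)
      _ = p 4 n - e * e * p 4 n := by ring
      _ ≤ p 4 n := by
          have : 0 ≤ e * e * p 4 n := by positivity
          linarith
  refine ⟨⟨max n₀ 4, hmain⟩, ?_⟩
  have hlim : Tendsto (fun n : ℕ => 1 - Real.exp (-(n : ℝ) ^ (1 / 20 : ℝ))) atTop (nhds 1) := by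
    have h1 : Tendsto (fun n : ℕ => (n : ℝ) ^ (1 / 20 : ℝ)) atTop atTop :=
      (tendsto_rpow_atTop (by norm_num)).comp tendsto_natCast_atTop_atTop
    have h2 : Tendsto (fun n : ℕ => Real.exp (-(n : ℝ) ^ (1 / 20 : ℝ))) atTop (nhds 0) :=
      Real.tendsto_exp_atBot.comp (tendsto_neg_atTop_atBot.comp h1)
    simpa using tendsto_const_nhds.sub h2
  refine tendsto_of_tendsto_of_tendsto_of_le_of_le' hlim tendsto_const_nhds ?_ ?_
  · filter_upwards [eventually_ge_atTop (max n₀ 4)] with n hn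
    obtain ⟨h1, h2⟩ := hmain n hn
    rw [le_div_iff₀ (by exact_mod_cast h1)]
    exact h2
  · filter_upwards [eventually_ge_atTop (max n₀ 4)] with n hn
    obtain ⟨h1, _⟩ := hmain n hn
    rw [div_le_one (by exact_mod_cast h1)]
    exact_mod_cast p_le n

end Pool.Agent.Results.MP_e8bc6f_co.RankFour
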