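/-
MP_e8bc6f_co : almost all simple matroids of rank r are paving, for every fixed r with 4 ≤ r ≤ 7
(isomorphism classes).
-/
import Pool.Agent.Helper41.R7.FIN2
import Pool.Agent.Helper41.R7.GAIN2

set_option autoImplicit false

namespace Pool.Agent.Results.MP_e8bc6f_co.RankSeven

open Filter

/-- `M` is a simple matroid with ground set all of `Fin n`: every set with at most two elements
is independent. -/
def IsSimple {n : ℕ} (M : Matroid (Fin n)) : Prop :=
  M.E = Set.univ ∧ ∀ I : Set (Fin n), I.ncard ≤ 2 → M.Indep I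

/-- `M` has rank `r`: every base has `r` elements. -/
def HasRank {n : ℕ} (M : Matroid (Fin n)) (r : ℕ) : Prop :=
  ∀ B : Set (Fin n), M.IsBase B → B.ncard = r

/-- `M` is paving: every set smaller than the rank is independent. -/
def IsPaving {n : ℕ} (M : Matroid (Fin n)) : Prop :=
  ∀ B I : Set (Fin n), M.IsBase B → I.ncard + 1 ≤ B.ncard → M.Indep I

/-- The isomorphism class of `M` among the matroids with ground set all of `Fin n`. -/
def isoClass {n : ℕ} (M : Matroid (Fin n)) : Set (Matroid (Fin n)) :=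
  {N : Matroid (Fin n) | N.E = Set.univ ∧
    ∃ σ : Equiv.Perm (Fin n), ∀ I : Set (Fin n), M.Indep I ↔ N.Indep (σ '' I)}

/-- The number of isomorphism classes of simple matroids of rank `r` with `n` elements. -/
noncomputable def s (r n : ℕ) : ℕ :=
  {S : Set (Matroid (Fin n)) | ∃ M : Matroid (Fin n),
    IsSimple M ∧ HasRank M r ∧ S = isoClass M}.ncard

/-- The number of isomorphism classes of paving simple matroids of rank `r` with `n` elements. -/
noncomputable def p (r n : ℕ) : ℕ :=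
  {S : Set (Matroid (Fin n)) | ∃ M : Matroid (Fin n),
    IsSimple M ∧ HasRank M r ∧ IsPaving M ∧ S = isoClass M}.ncard

private theorem good_iff {n r : ℕ} (M : Matroid (Fin n)) :
    (IsSimple M ∧ HasRank M r) ↔ Helper41.R7.Good r M :=
  ⟨fun h => ⟨h.1.1, h.1.2, h.2⟩, fun h => ⟨⟨h.1, h.2.1⟩, h.2.2⟩⟩

private theorem pav_iff {n r : ℕ} (M : Matroid (Fin n)) (h : HasRank M r) :
    IsPaving M ↔ Helper41.R7.Pav r M := by
  constructor
  · intro hp I hI
    obtain ⟨B, hB⟩ := M.exists_isBase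
    exact hp B I hB (by rw [h B hB]; omega)
  · intro hp B I hB hI
    rw [h B hB] at hI
    exact hp I (by omega)

private theorem p_eq (r n : ℕ) :
    p r n = Helper2.R4.nc n (fun M => Helper41.R7.Good r M ∧ Helper41.R7.Pav r M) := by
  unfold p Helper2.R4.nc
  congr 1
  ext S
  constructor
  · rintro ⟨M, h1, h2, h3, h4⟩
    exact ⟨M, ⟨(good_iff M).1 ⟨h1, h2⟩, (pav_iff M h2).1 h3⟩, h4⟩
  · rintro ⟨M, ⟨h1, h2⟩, h3⟩
    obtain ⟨h4, h5⟩ := (good_iff M).2 h1
    exact ⟨M, h4, h5, (pav_iff M h5).2 h2, h3⟩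

private theorem s_le (r n : ℕ) :
    s r n ≤ p r n + Helper2.R4.nc n (fun M => Helper41.R7.Good r M ∧ ¬ Helper41.R7.Pav r M) := by
  have : Finite (Matroid (Fin n)) := Helper2.R4.finite_matroid
  rw [p_eq]
  unfold s Helper2.R4.nc
  refine le_trans (Set.ncard_le_ncard ?_ (Set.toFinite _)) (Set.ncard_union_le _ _)
  rintro S ⟨M, h1, h2, h3⟩
  by_cases h4 : Helper41.R7.Pav r M
  · exact Or.inl ⟨M, ⟨(good_iff M).1 ⟨h1, h2⟩, h4⟩, h3⟩
  · exact Or.inr ⟨M, ⟨(good_iff M).1 ⟨h1, h2⟩, h4⟩, h3⟩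

private theorem p_le (r n : ℕ) : p r n ≤ s r n := by
  have : Finite (Matroid (Fin n)) := Helper2.R4.finite_matroid
  unfold s p
  refine Set.ncard_le_ncard ?_ (Set.toFinite _)
  rintro S ⟨M, h1, h2, _, h3⟩
  exact ⟨M, h1, h2, h3⟩

private theorem p_pos (r n : ℕ) (hr : 4 ≤ r) (hn : r ≤ n) : 0 < p r n := by
  have : Finite (Matroid (Fin n)) := Helper2.R4.finite_matroid
  have h1 := Helper41.R7.two_le_card_fam (V := Fin n) (r := r) (by omega) (by simpa using hn)
  have h2 := Helper41.R7.card_fam_le (V := Fin n) (r := r) (by omega) (by simpa using hn)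
  have h3 : 0 < {M : Matroid (Fin n) | Helper41.R7.Good r M ∧ Helper41.R7.Pav r M}.ncard := by
    omega
  obtain ⟨M, hM⟩ := (Set.ncard_pos (Set.toFinite _)).1 h3
  rw [p_eq]
  unfold Helper2.R4.nc
  rw [Set.ncard_pos (Set.toFinite _)]
  exact ⟨_, M, hM, rfl⟩

/-- Almost all simple matroids of rank `r` are paving, for every fixed `r` with `4 ≤ r ≤ 7`: for
every `C` and all large `n` the number of the isomorphism classes of simple matroids of rank `r` on
`n` elements which are not paving is at most `n ^ (-C)` times the number of all of them; in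
particular `p r n / s r n → 1`. -/
theorem result (r : ℕ) (hr : 4 ≤ r) (hr7 : r ≤ 7) :
    (∀ C : ℕ, ∃ n₀ : ℕ, ∀ n ≥ n₀, 0 < s r n ∧ (s r n - p r n) * n ^ C ≤ s r n) ∧
    Tendsto (fun n : ℕ => (p r n : ℝ) / s r n) atTop (nhds 1) := by
  have hmain : ∀ C : ℕ, ∃ n₀ : ℕ, ∀ n ≥ n₀, 0 < s r n ∧ (s r n - p r n) * n ^ C ≤ s r n := by
    intro C
    obtain ⟨n0, h0⟩ := Helper41.R7.unlabelled hr (Helper41.R7.gain_prop r hr hr7) C
    refine ⟨max n0 r, fun n hn => ?_⟩
    have hn1 : n0 ≤ n := le_trans (le_max_left _ _) hn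
    have hn2 : r ≤ n := le_trans (le_max_right _ _) hn
    refine ⟨lt_of_lt_of_le (p_pos r n hr hn2) (p_le r n), ?_⟩
    have h1 := h0 n hn1
    rw [← p_eq] at h1
    have h2 := s_le r n
    calc (s r n - p r n) * n ^ C
        ≤ Helper2.R4.nc n (fun M => Helper41.R7.Good r M ∧ ¬ Helper41.R7.Pav r M) * n ^ C :=
          Nat.mul_le_mul_right _ (by omega)
      _ ≤ p r n := h1
      _ ≤ s r n := p_le r n
  refine ⟨hmain, ?_⟩
  obtain ⟨n₀, h₀⟩ := hmain 1
  have hlim : Tendsto (fun n : ℕ => 1 - 1 / (n : ℝ)) atTop (nhds 1) := by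
    simpa using tendsto_const_nhds.sub (tendsto_one_div_atTop_nhds_zero_nat (𝕜 := ℝ))
  refine tendsto_of_tendsto_of_tendsto_of_le_of_le' hlim tendsto_const_nhds ?_ ?_
  · filter_upwards [eventually_ge_atTop (max n₀ 1)] with n hn
    obtain ⟨h1, h2⟩ := h₀ n (le_trans (le_max_left _ _) hn)
    have hn1 : (0 : ℝ) < n := by
      have : 1 ≤ n := le_trans (le_max_right _ _) hn
      exact_mod_cast this
    have h3 := p_le r n
    have h4 : ((s r n : ℝ) - p r n) * n ≤ s r n := by
      have h5 : (((s r n - p r n) * n ^ 1 : ℕ) : ℝ) ≤ s r n := by exact_mod_cast h2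
      rw [pow_one, Nat.cast_mul, Nat.cast_sub h3] at h5
      exact h5
    have h6 : (0 : ℝ) < s r n := by exact_mod_cast h1
    rw [le_div_iff₀ h6, sub_mul, one_mul, div_mul_eq_mul_div, one_mul, sub_le_iff_le_add]
    have h7 : (s r n : ℝ) - p r n ≤ s r n / n := by
      rw [le_div_iff₀ hn1]; exact h4
    linarith
  · filter_upwards [eventually_ge_atTop n₀] with n hn
    obtain ⟨h1, _⟩ := h₀ n hn
    rw [div_le_one (by exact_mod_cast h1)]
    exact_mod_cast p_le r n

end Pool.Agent.Results.MP_e8bc6f_co.RankSeven
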